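import Mathlib

namespace Pool.Agent.Results.MP_d6b6f7_nt.Ex

abbrev K (D : ℕ) := QuadraticAlgebra ℚ D 0

def TotPos {D : ℕ} (x : K D) : Prop :=
  IsIntegral ℤ x ∧ 0 < (x.re : ℝ) + x.im * √D ∧ 0 < (x.re : ℝ) - x.im * √D

def Indec {D : ℕ} (x : K D) : Prop := TotPos x ∧ ¬ ∃ y z, TotPos y ∧ TotPos z ∧ x = y + z

def IsUnitO {D : ℕ} (e : K D) : Prop := IsIntegral ℤ e ∧ ∃ f, IsIntegral ℤ f ∧ e * f = 1

def Q {D : ℕ} (a : K D) (m : ℤ) (x y : K D) : K D := a * x ^ 2 + 2 * m * x * y + star a * y ^ 2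

lemma nt {D : ℕ} {x : K D} (h : IsIntegral ℤ x) :
    (∃ a : ℤ, 2 * x.re = a) ∧ ∃ n : ℤ, QuadraticAlgebra.norm x = n := by
  have hs : IsIntegral ℤ (star x) := h.map (starRingEnd (K D)).toIntAlgHom
  have key : ∀ q : ℚ, IsIntegral ℤ (algebraMap ℚ (K D) q) → ∃ a : ℤ, q = a := fun q hq => by
    obtain ⟨a, ha⟩ := IsIntegrallyClosed.isIntegral_iff.1
      ((isIntegral_algebraMap_iff (algebraMap ℚ (K D)).injective).1 hq)
    exact ⟨a, ha.symm⟩
  refine ⟨key _ ?_, key _ ?_⟩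
  · convert h.add hs using 1
    ext <;> simp
    ring
  · rw [QuadraticAlgebra.algebraMap_norm_eq_mul_star]; exact h.mul hs

lemma shape {x : K 41} (h : IsIntegral ℤ x) :
    ∃ a b : ℤ, 2 * x.re = a ∧ 2 * x.im = b ∧ a % 2 = b % 2 := by
  obtain ⟨⟨a, ha⟩, n, hn⟩ := nt h
  rw [QuadraticAlgebra.norm_def] at hn
  have h1 : (82 * x.im) ^ 2 = ((41 * (a ^ 2 - 4 * n) : ℤ) : ℚ) := by
    push_cast at hn ⊢
    rw [← ha, ← hn]; ring
  obtain ⟨c, hc⟩ : ∃ c : ℤ, (c : ℚ) = 82 * x.im :=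
    IsIntegrallyClosed.exists_algebraMap_eq_of_isIntegral_pow (n := 2) (by norm_num)
      (h1 ▸ isIntegral_algebraMap)
  have h2 : c ^ 2 = 41 * (a ^ 2 - 4 * n) := by rw [← hc] at h1; exact_mod_cast h1
  obtain ⟨b, rfl⟩ : (41 : ℤ) ∣ c := Int.Prime.dvd_pow' (by norm_num) ⟨_, h2⟩
  refine ⟨a, b, ha, by push_cast at hc; linarith, ?_⟩
  have h3 : 41 * b ^ 2 = a ^ 2 - 4 * n := by nlinarith
  rcases Int.even_or_odd' a with ⟨u, rfl | rfl⟩ <;> rcases Int.even_or_odd' b with ⟨v, rfl | rfl⟩ <;>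
    ring_nf at h3 <;> omega

lemma integ (a b : ℤ) : IsIntegral ℤ (⟨a + b / 2, b / 2⟩ : K 41) := by
  have hw : IsIntegral ℤ (⟨1 / 2, 1 / 2⟩ : K 41) := by
    refine ⟨Polynomial.X ^ 2 - Polynomial.X - 10, by monicity!, ?_⟩
    simp only [Polynomial.eval₂_sub, Polynomial.eval₂_pow, Polynomial.eval₂_X,
      Polynomial.eval₂_ofNat]
    ext <;> simp [sq, QuadraticAlgebra.re_ofNat, QuadraticAlgebra.im_ofNat] <;> norm_num
  convert (isIntegral_algebraMap (x := a)).add (hw.smul b) using 1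
  ext <;> simp <;> ring

lemma pos {x : K 41} (h : TotPos x) : ∃ a b : ℤ, 2 * x.re = a ∧ 2 * x.im = b ∧ a % 2 = b % 2 ∧
    6403 * b ≤ 1000 * a ∧ 0 < a := by
  obtain ⟨a, b, ha, hb, hab⟩ := shape h.1
  have h1 : (6403 / 1000 : ℝ) ≤ √(41 : ℕ) := Real.le_sqrt_of_sq_le (by norm_num)
  have ha' : 2 * (x.re : ℝ) = a := by exact_mod_cast ha
  have hb' : 2 * (x.im : ℝ) = b := by exact_mod_cast hb
  have h2 := h.2.1
  have h3 := h.2.2
  have h4 : (0 : ℝ) < a := by linarith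
  refine ⟨a, b, ha, hb, hab, ?_, by exact_mod_cast h4⟩
  have : (6403 * b : ℝ) ≤ 1000 * a := by
    rcases le_total 0 (x.im : ℝ) with h | h
    · have h5 := (mul_le_mul_of_nonneg_left h1 h).trans (sub_pos.1 h3).le
      linarith
    · linarith
  exact_mod_cast this

theorem result : ∃ D : ℕ, Squarefree D ∧ 1 < D ∧ ∃ α β : K D, Indec α ∧ Indec β ∧
    (∀ e, IsUnitO e → β ≠ e * α ∧ β ≠ e * star α) ∧
    (∀ η, IsIntegral ℤ η → β ≠ α * η ^ 2 ∧ β ≠ star α * η ^ 2 ∧ α ≠ β * η ^ 2 ∧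
      α ≠ star β * η ^ 2) ∧
    ∃ m n : ℤ, 0 < m ^ 2 ∧ (m ^ 2 : ℚ) < QuadraticAlgebra.norm α ∧
      0 < n ^ 2 ∧ (n ^ 2 : ℚ) < QuadraticAlgebra.norm β ∧
      ∃ p q r s : K D, IsIntegral ℤ p ∧ IsIntegral ℤ q ∧ IsIntegral ℤ r ∧ IsIntegral ℤ s ∧
        IsUnitO (p * s - q * r) ∧ ∀ x y, Q β n x y = Q α m (p * x + q * y) (r * x + s * y) := by
  have s1 : √(41 : ℕ) ≤ (6404 / 1000 : ℝ) := Real.sqrt_le_iff.2 (by norm_num)
  have s0 := Real.sqrt_nonneg (41 : ℕ)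
  have na : QuadraticAlgebra.norm (⟨13, 2⟩ : K 41) = 5 := by
    rw [QuadraticAlgebra.norm_def]; norm_num
  have nb : QuadraticAlgebra.norm (⟨173 / 2, 27 / 2⟩ : K 41) = 10 := by
    rw [QuadraticAlgebra.norm_def]; norm_num
  have key : ∀ η : K 41, IsIntegral ℤ η → 10 ≠ 5 * QuadraticAlgebra.norm η ^ 2 ∧
      5 ≠ 10 * QuadraticAlgebra.norm η ^ 2 := by
    intro η h
    obtain ⟨-, n, hn⟩ := nt h
    rw [hn]
    constructor
    · intro h1
      have h2 : (10 : ℤ) = 5 * n ^ 2 := by exact_mod_cast h1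
      have : n ≤ 2 := by nlinarith
      have : -2 ≤ n := by nlinarith
      interval_cases n <;> omega
    · intro h1
      have h2 : (5 : ℤ) = 10 * n ^ 2 := by exact_mod_cast h1
      omega
  refine ⟨41, (by norm_num : Nat.Prime 41).squarefree, by norm_num, ⟨13, 2⟩, ⟨173 / 2, 27 / 2⟩,
    ⟨⟨by convert integ 11 4 using 2 <;> norm_num, by norm_num; positivity, by
      push_cast at s1 ⊢; linarith⟩, ?_⟩,
    ⟨⟨by convert integ 73 27 using 2 <;> norm_num, by norm_num; positivity, by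
      push_cast at s1 ⊢; linarith⟩, ?_⟩, ?_, ?_, 2, 3, by norm_num, by rw [na]; norm_num,
    by norm_num, by rw [nb]; norm_num, 1, ⟨32, -5⟩, ⟨19 / 2, 3 / 2⟩, ⟨-5 / 2, 1 / 2⟩,
    isIntegral_one, by convert integ 37 (-10) using 2 <;> norm_num,
    by convert integ 8 3 using 2 <;> norm_num, by convert integ (-3) 1 using 2 <;> norm_num,
    ?_, fun x y => ?_⟩
  · rintro ⟨y, z, hy, hz, h⟩
    obtain ⟨a, b, a1, a2, a3, a4, a5⟩ := pos hy
    obtain ⟨c, d, c1, c2, c3, c4, c5⟩ := pos hz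
    have h1 := congrArg QuadraticAlgebra.re h
    have h2 := congrArg QuadraticAlgebra.im h
    simp only [QuadraticAlgebra.re_add, QuadraticAlgebra.im_add] at h1 h2
    have h3 : a + c = 26 := by exact_mod_cast (show (a + c : ℚ) = 26 by linarith)
    have h4 : b + d = 4 := by exact_mod_cast (show (b + d : ℚ) = 4 by linarith)
    have : b ≤ 4 := by omega
    have : 0 ≤ b := by omega
    interval_cases b <;> omega
  · rintro ⟨y, z, hy, hz, h⟩
    obtain ⟨a, b, a1, a2, a3, a4, a5⟩ := pos hy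
    obtain ⟨c, d, c1, c2, c3, c4, c5⟩ := pos hz
    have h1 := congrArg QuadraticAlgebra.re h
    have h2 := congrArg QuadraticAlgebra.im h
    simp only [QuadraticAlgebra.re_add, QuadraticAlgebra.im_add] at h1 h2
    have h3 : a + c = 173 := by exact_mod_cast (show (a + c : ℚ) = 173 by linarith)
    have h4 : b + d = 27 := by exact_mod_cast (show (b + d : ℚ) = 27 by linarith)
    have : b ≤ 27 := by omega
    have : 0 ≤ b := by omega
    interval_cases b <;> omega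
  · rintro e ⟨h1, f, h2, h3⟩
    obtain ⟨-, u, hu⟩ := nt h1
    obtain ⟨-, v, hv⟩ := nt h2
    have h4 := congrArg QuadraticAlgebra.norm h3
    rw [map_mul, map_one, hu, hv] at h4
    have h5 : u * v = 1 := by exact_mod_cast h4
    constructor <;> intro h <;> have h6 := congrArg QuadraticAlgebra.norm h <;>
      simp only [map_mul, QuadraticAlgebra.norm_star, na, nb, hu] at h6 <;>
      rcases Int.eq_one_or_neg_one_of_mul_eq_one h5 with rfl | rfl <;> norm_num at h6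
  · intro η h
    have := key η h
    refine ⟨?_, ?_, ?_, ?_⟩ <;> intro h <;> have h6 := congrArg QuadraticAlgebra.norm h <;>
      simp only [map_mul, map_pow, QuadraticAlgebra.norm_star, na, nb] at h6 <;> tauto
  · have : (1 * ⟨-5 / 2, 1 / 2⟩ - ⟨32, -5⟩ * ⟨19 / 2, 3 / 2⟩ : K 41) = 1 := by
      ext <;> simp [QuadraticAlgebra.re_one, QuadraticAlgebra.im_one] <;> norm_num
    rw [this]
    exact ⟨isIntegral_one, 1, isIntegral_one, one_mul _⟩
  · ext <;> simp [Q, sq, QuadraticAlgebra.re_ofNat, QuadraticAlgebra.im_ofNat] <;> ring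

end Pool.Agent.Results.MP_d6b6f7_nt.Ex
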